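import Mathlib
import Pool.Agent.Helper88.Gap.Fin

/-!
The Robin fundamental gap of planar convex domains with convex potentials is not minimised by
`V = 0` and domains degenerating to a segment.
-/

open MeasureTheory Set Metric Filter Topology

noncomputable section

namespace Pool.Agent.Results.MP_e32423_an.SegmentGapFails

/-- `ℝⁿ` with its Euclidean norm. -/
abbrev E (n : ℕ) := EuclideanSpace ℝ (Fin n)

/-- Surface measure on the boundary of `Ω ⊆ ℝⁿ`: the `(n-1)`-dimensional Hausdorff measure in its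
Euclidean normalisation (arc length for `n = 2`), restricted to the topological boundary. -/
def bdryMeasure {n : ℕ} (Ω : Set (E n)) : Measure (E n) :=
  (Measure.euclideanHausdorffMeasure (n - 1)).restrict (frontier Ω)

/-- `∫_Ω v²`. -/
def mass {n : ℕ} (Ω : Set (E n)) (v : E n → ℝ) : ℝ := ∫ x in Ω, v x ^ 2

/-- The form `∫_Ω (|∇v|² + V v²) + α ∫_∂Ω v²` of the Robin problem. -/
def form {n : ℕ} (Ω : Set (E n)) (V : E n → ℝ) (α : ℝ) (v : E n → ℝ) : ℝ :=
  (∫ x in Ω, (‖fderiv ℝ v x‖ ^ 2 + V x * v x ^ 2)) + α * ∫ x, v x ^ 2 ∂(bdryMeasure Ω)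

/-- The `k`-th Robin eigenvalue, by the min-max principle over `k`-dimensional spaces of `C¹`
functions on `ℝⁿ` none of whose nonzero elements vanishes on `Ω`. -/
def eigenvalue {n : ℕ} (Ω : Set (E n)) (V : E n → ℝ) (α : ℝ) (k : ℕ) : ℝ :=
  sInf {r : ℝ | ∃ W : Submodule ℝ (E n → ℝ), Module.finrank ℝ W = k ∧
    (∀ v ∈ W, ContDiff ℝ 1 v) ∧ (∀ v ∈ W, v ≠ 0 → 0 < mass Ω v) ∧
    r = sSup {q : ℝ | ∃ v ∈ W, v ≠ 0 ∧ q = form Ω V α v / mass Ω v}}

/-- The Robin fundamental gap `λ₂ - λ₁`. -/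
def gap {n : ℕ} (Ω : Set (E n)) (V : E n → ℝ) (α : ℝ) : ℝ :=
  eigenvalue Ω V α 2 - eigenvalue Ω V α 1

/-- Bounded convex domains of diameter `d`. -/
structure IsConvexDomain {n : ℕ} (Ω : Set (E n)) (d : ℝ) : Prop where
  isOpen : IsOpen Ω
  convex : Convex ℝ Ω
  nonempty : Ω.Nonempty
  isBounded : Bornology.IsBounded Ω
  diam_eq : diam Ω = d

/-- A sequence of bounded convex domains of diameter `d` that converges in Hausdorff distance to
a line segment of length `d`. -/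
structure DegeneratesToSegment {n : ℕ} (Ωs : ℕ → Set (E n)) (d : ℝ) : Prop where
  isConvexDomain : ∀ k, IsConvexDomain (Ωs k) d
  tendsto : ∃ P Q : E n, dist P Q = d ∧
    Tendsto (fun k => hausdorffDist (Ωs k) (segment ℝ P Q)) atTop (𝓝 0)

/-- `Γ_seg(n, d, α)`: the infimum of `liminf_k Γ(Ω_k, 0)` over the sequences of bounded convex
domains of diameter `d` in `ℝⁿ` that degenerate to a segment. -/
def GammaSeg (n : ℕ) (d α : ℝ) : EReal :=
  sInf {L : EReal | ∃ Ωs : ℕ → Set (E n), DegeneratesToSegment Ωs d ∧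
    L = liminf (fun k => ((gap (Ωs k) (fun _ => 0) α : ℝ) : EReal)) atTop}

lemma eigenvalue_eq (Ω : Set (E 2)) (V : E 2 → ℝ) (α : ℝ) (k : ℕ) :
    eigenvalue Ω V α k = Helper88.Gap.lamf (volume.restrict Ω) (Helper88.Gap.surf Ω) V α k := by
  have h : bdryMeasure Ω = Helper88.Gap.surf Ω := by
    unfold bdryMeasure Helper88.Gap.surf
    rw [show (2 - 1 : ℕ) = 1 from rfl, Helper88.Gap.euc_one]
  unfold eigenvalue form
  rw [h]
  rfl

/-- In the plane, for all `d > 0` and `α > 0` with `α d ≤ 10⁻⁶`, one has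
`Γ_seg(2, d, α) ≥ 1 / (800 d²)`, while the gaps of convex domains of diameter `d` with convex
potentials come arbitrarily close to `0`. -/
theorem result (d α : ℝ) (hd : 0 < d) (hα : 0 < α) (hαd : α * d ≤ 1 / 10 ^ 6) :
    ((1 / (800 * d ^ 2) : ℝ) : EReal) ≤ GammaSeg 2 d α ∧
    ∀ η : ℝ, 0 < η → ∃ (Ω : Set (E 2)) (V : E 2 → ℝ), IsConvexDomain Ω d ∧
      ConvexOn ℝ univ V ∧ Continuous V ∧ 0 ≤ gap Ω V α ∧ gap Ω V α < η ∧
      ((gap Ω V α : ℝ) : EReal) < GammaSeg 2 d α := by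
  have hseg : ((1 / (800 * d ^ 2) : ℝ) : EReal) ≤ GammaSeg 2 d α := by
    apply le_sInf
    rintro L ⟨Ωs, ⟨hdom, P, Q, -, hlim⟩, rfl⟩
    apply le_liminf_of_le (by isBoundedDefault)
    have h := Helper88.Gap.seg_gap hd (fun k => ⟨(hdom k).isOpen, (hdom k).convex,
      (hdom k).nonempty, (hdom k).isBounded, (hdom k).diam_eq⟩) hlim hα
      (hαd.trans (by norm_num))
    filter_upwards [h] with k hk
    rw [gap, eigenvalue_eq, eigenvalue_eq]
    exact_mod_cast hk
  refine ⟨hseg, ?_⟩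
  intro η hη
  have hpos : 0 < 1 / (800 * d ^ 2) := by positivity
  obtain ⟨Ω, K, h1, h2, h3, h4, h5, h6, h7, h8⟩ :=
    Helper88.Gap.small_gap hd hα (η := min η (1 / (800 * d ^ 2))) (lt_min hη hpos)
  have hg : gap Ω (fun p => K * p 1) α =
      Helper88.Gap.lamf (volume.restrict Ω) (Helper88.Gap.surf Ω) (fun p => K * p 1) α 2 -
      Helper88.Gap.lamf (volume.restrict Ω) (Helper88.Gap.surf Ω) (fun p => K * p 1) α 1 := by
    rw [gap, eigenvalue_eq, eigenvalue_eq]
  refine ⟨Ω, fun p => K * p 1, ⟨h1, h2, h3, h4, h5⟩, ?_, ?_, ?_, ?_, ?_⟩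
  · refine ⟨convex_univ, ?_⟩
    intro x _ y _ a b _ _ _
    refine le_of_eq ?_
    simp only [PiLp.add_apply, PiLp.smul_apply, smul_eq_mul]
    ring
  · exact continuous_const.mul (Helper88.Gap.coord_cont 1)
  · rw [hg]; linarith
  · rw [hg]; exact h8.trans_le (min_le_left _ _)
  · refine lt_of_lt_of_le ?_ hseg
    rw [hg]
    exact_mod_cast h8.trans_le (min_le_right _ _)

end Pool.Agent.Results.MP_e32423_an.SegmentGapFails
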